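import Pool.Agent.W548.MQ.Stm

/-! Project MQ, part EVEN: the function `1 + x` on the circle has even order everywhere. -/

set_option autoImplicit false

open WithZero IsDedekindDomain

namespace Pool.Agent.W700.MQ

open W548.MQ

theorem t_EVEN : W548.MQ.S_EVEN := by
  intro _ _ v L _ _ _ f hf
  have hab : (1 + x) * (1 - x) = y ^ 2 := by linear_combination -circle
  have hV : v.valuation L (f : L) ≠ 0 := (Valuation.ne_zero_iff _).2 f.ne_zero
  by_cases h1 : (1 + x) ∈ v.asIdeal
  · have h2 : (1 - x) ∉ v.asIdeal := by
      intro h2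
      have h3 : (2 : A) ∈ v.asIdeal := by
        have := v.asIdeal.add_mem h1 h2
        have e : (1 + x) + (1 - x) = (2 : A) := by ring
        rwa [e] at this
      have h4 : (1 : A) ∈ v.asIdeal := by
        have h5 := v.asIdeal.mul_mem_left (algebraMap ℚ A (1 / 2)) h3
        have e : algebraMap ℚ A (1 / 2) * 2 = (1 : A) := by
          have : (2 : A) = algebraMap ℚ A 2 := (map_ofNat (algebraMap ℚ A) 2).symm
          rw [this, ← map_mul]
          norm_num
        rwa [e] at h5
      exact v.isPrime.ne_top ((Ideal.eq_top_iff_one _).2 h4)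
    have hb : v.valuation L (algebraMap A L (1 - x)) = 1 :=
      (v.valuation_eq_one_iff_notMem (K := L)).2 h2
    have key : v.valuation L (f : L) = (v.valuation L (algebraMap A L y)) ^ 2 := by
      rw [← map_pow, ← map_pow, ← hab, map_mul, map_mul, hb, mul_one, hf]
    refine ⟨- log (v.valuation L (algebraMap A L y)), ?_⟩
    unfold ord
    rw [key, log_pow]
    simp only [nsmul_eq_mul, Nat.cast_ofNat]
    ring
  · have h3 : v.valuation L (f : L) = 1 := by
      rw [hf]
      exact (v.valuation_eq_one_iff_notMem (K := L)).2 h1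
    unfold ord
    rw [h3, log_one]
    simp

end Pool.Agent.W700.MQ
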